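import Pool.Agent.H65.CRZ.TD
import Pool.Agent.H37.CV.All

/-!
# Zeros on the critical line: the long relations (row DL)
-/

set_option autoImplicit false

open NumberField NumberField.InfinitePlace Finset

namespace Pool.Agent.H29.CRZ

open Pool.Agent.H65.CRZ Pool.Agent.H37.CV Pool.Agent.H28.RC Pool.Agent.H25.HK Pool.Agent.H46.CV

theorem pf_DL (hDT : H65.CRZ.T_DT) (hCQ : H65.CRZ.T_CQ) : H65.CRZ.T_DL := by
  classical
  intro K _ _ _ hf ε₁ hε₁ hε₁'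
  set δ' : ℝ := ε₁ / 4 with hδ'
  have hδ'0 : 0 < δ' := by positivity
  have hδ'1 : δ' ≤ 1 := by rw [hδ']; linarith
  set e : ℝ := ε₁ / 24 with he
  have he0 : 0 < e := by positivity
  set δ : ℝ := ε₁ / 128 with hδ
  have hδ0 : 0 < δ := by positivity
  have hδ1 : δ ≤ 1 / 8 := by rw [hδ]; linarith
  obtain ⟨A, hA⟩ : ∃ A : ℕ, 9 ≤ δ' * A := by
    obtain ⟨A, hA⟩ := exists_nat_ge (9 / δ')
    refine ⟨A, ?_⟩
    rw [div_le_iff₀ hδ'0] at hA
    linarith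
  obtain ⟨C_T, B_T, hC_T0, hB_T, hC_T⟩ := hDT K δ (A + 3) hδ0 hδ1
  refine ⟨δ, B_T, hδ0, hδ1, hB_T, ?_⟩
  intro η c hη hc
  obtain ⟨C_P, hC_P⟩ := a_PS K e he0
  obtain ⟨C_V, hC_V1, -, hC_V⟩ := (a_DV K).1 (1 / 2) (by norm_num)
  obtain ⟨c_H, C_H, q₁, hc_H, hHQ'⟩ := a_HQ K
  obtain ⟨S, hS0, hS⟩ := pairs_sum (K := K) a_ZK
  obtain ⟨-, cq, hcq, hCQ'⟩ := hCQ K hf
  set b : ℝ := cq ^ 2 with hb
  have hb0 : 0 < b := by positivity
  set B : ℝ := max 1 b with hB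
  have hB1 : 1 ≤ B := le_max_left _ _
  have hbB : b ≤ B := le_max_right _ _
  set c_L : ℝ := B ^ (8 * δ) with hc_L
  have hc_L0 : 0 ≤ c_L := by positivity
  set C1 : ℝ := C_T * |C_P| * |C_H| * c_L * B ^ (2 * e) * (c ^ (-(1 / 2) : ℝ) + B) with hC1
  set C2 : ℝ := |C_H| * (C_T * C_V ^ 2 * c_L * b⁻¹ * S) with hC2
  have hC10 : 0 ≤ C1 := by positivity
  have hC20 : 0 ≤ C2 := by positivity
  obtain ⟨q₂, hq₂⟩ := exists_nat_ge (((C1 + C2) / (η * c_H)) ^ (1 / ε₁))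
  obtain ⟨q₃, hq₃⟩ := exists_nat_ge (1 / b)
  obtain ⟨q₄, hq₄⟩ := exists_nat_ge (1 / cq)
  refine ⟨max (max q₁ q₂) (max q₃ q₄), ?_⟩
  intro q hq hq0 d s₁ s₂ c₁ c₂ hd hs₁ hs₂ hc₁ hc₂ X hX
  have hqq₁ : q₁ ≤ q := ((le_max_left _ _).trans (le_max_left _ _)).trans hq0
  have hqq₂ : q₂ ≤ q := ((le_max_right _ _).trans (le_max_left _ _)).trans hq0
  have hqq₃ : q₃ ≤ q := ((le_max_left _ _).trans (le_max_right _ _)).trans hq0
  have hqq₄ : q₄ ≤ q := ((le_max_right _ _).trans (le_max_right _ _)).trans hq0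
  obtain ⟨hHQ1, hHQ2⟩ := hHQ' q hq hqq₁
  obtain ⟨hHQ3, -⟩ := hHQ2 d hd
  obtain ⟨hcA, hnmq⟩ := hCQ' q hq
  set x : ℝ := (q : ℝ) with hx
  have hx1 : (1 : ℝ) ≤ x := by rw [hx]; exact_mod_cast hq.one_le
  have hx0 : 0 < x := by linarith
  have hd0 : d ≠ ⊥ := ne_bot_of_le hq hd
  have hnd := one_le_nm hd0
  have hndx : nm d ≤ x ^ 2 := by
    have h1 := nm_le_of_le hq hd
    rwa [hf] at h1
  rw [hf] at hHQ1
  set Q : ℝ := cA K (qi K q) ^ 2 with hQ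
  have hQe : Q = b * x ^ 2 := by
    rw [hQ, hcA]
    ring
  have hbx : 1 ≤ b * x := by
    have h1 : 1 / b ≤ x := hq₃.trans (by rw [hx]; exact_mod_cast hqq₃)
    rw [div_le_iff₀ hb0] at h1
    linarith
  have hQx : x ≤ Q := by
    rw [hQe]
    calc x = 1 * x := (one_mul x).symm
      _ ≤ (b * x) * x := by gcongr
      _ = b * x ^ 2 := by ring
  have hQ1 : 1 ≤ Q := hx1.trans hQx
  have hQB : Q ≤ B * x ^ 2 := by rw [hQe]; gcongr
  set M : ℝ := Mq ε₁ q with hM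
  have hMe : M = x ^ (1 - 2 * ε₁) := by rw [hM, Mq]
  have hM1 : 1 ≤ M := by rw [hMe]; exact Real.one_le_rpow hx1 (by linarith)
  have hMx : M ≤ x := by
    rw [hMe]
    conv_rhs => rw [← Real.rpow_one x]
    exact Real.rpow_le_rpow_of_exponent_le hx1 (by linarith)
  have hMQ : M ≤ Q := hMx.trans hQx
  set W : ℝ := (1 + |s₁.im| + |s₂.im|) ^ B_T with hW
  have hW0 : 0 ≤ W := by positivity
  set L : ℝ := (Q * M ^ 2) ^ (8 * δ) with hL
  have hL0 : 0 ≤ L := by positivity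
  have hLx : L ≤ c_L * x ^ (ε₁ / 4) := by
    calc L ≤ (B * x ^ (4 : ℕ)) ^ (8 * δ) := by
          rw [hL]
          have h1 : Q * M ^ 2 ≤ B * x ^ (4 : ℕ) := by
            calc Q * M ^ 2 ≤ (B * x ^ 2) * x ^ 2 := by gcongr
              _ = B * x ^ (4 : ℕ) := by ring
          gcongr
      _ = c_L * x ^ (ε₁ / 4) := by
          rw [Real.mul_rpow (by positivity) (by positivity), ← Real.rpow_natCast x,
            ← Real.rpow_mul hx0.le, hc_L]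
          congr 2
          rw [hδ]
          push_cast
          ring
  set R : ℝ := Q ^ (1 + δ') * M ^ 2 with hR
  have hQR : Q ≤ R := by
    have h1 : Q ≤ Q ^ (1 + δ') := by
      conv_lhs => rw [← Real.rpow_one Q]
      exact Real.rpow_le_rpow_of_exponent_le hQ1 (by linarith)
    have h2 : (1 : ℝ) ≤ M ^ 2 := one_le_pow₀ hM1
    rw [hR]
    calc Q = Q * 1 := by ring
      _ ≤ Q ^ (1 + δ') * M ^ 2 := by gcongr
  have hR1 : 1 ≤ R := hQ1.trans hQR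
  have hR0 : 0 < R := by linarith
  -- basic facts for the pairs
  have hXp : ∀ p ∈ X, p.1 ≠ ⊥ ∧ p.2 ≠ ⊥ ∧ p.1 ⊔ p.2 = ⊤ := fun p hp =>
    ⟨(hX p hp).1.1, (hX p hp).1.2.1, (hX p hp).1.2.2.1⟩
  set w : Ideal (𝓞 K) × Ideal (𝓞 K) → ℝ :=
    fun p => ‖Dg (qi K q) Q M s₁ s₂ c₁ c₂ p.1 p.2‖ with hw
  set X1 := X.filter (fun p => nm p.1 * nm p.2 ≤ R) with hX1
  set X2 := X.filter (fun p => ¬ nm p.1 * nm p.2 ≤ R) with hX2
  have hsplit : ∑ p ∈ X, w p = ∑ p ∈ X1, w p + ∑ p ∈ X2, w p :=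
    (Finset.sum_filter_add_sum_filter_not X _ w).symm
  set T : ℝ := x ^ (2 - ε₁) with hT
  have hT0 : 0 ≤ T := by positivity
  have hnc : (0 : ℝ) ≤ nc (qi K q) d := Nat.cast_nonneg _
  -- the near part
  have hnear : (nc (qi K q) d : ℝ) * ∑ p ∈ X1, w p ≤ W * (C1 * T) := by
    rcases X1.eq_empty_or_nonempty with hE | ⟨p0, hp0⟩
    · rw [hE, Finset.sum_empty, mul_zero]; positivity
    set L₀ : ℝ := max 1 (c * nm d ^ 2 / x ^ 2) with hL₀
    have hL₀1 : 1 ≤ L₀ := le_max_left _ _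
    have hPL : ∀ p ∈ X1, L₀ ≤ nm p.1 * nm p.2 ∧ nm p.1 * nm p.2 ≤ R := by
      intro p hp
      obtain ⟨hpX, hpR⟩ := Finset.mem_filter.mp hp
      obtain ⟨h1, h2, -⟩ := hXp p hpX
      refine ⟨max_le ?_ ?_, hpR⟩
      · exact one_le_mul_of_one_le_of_one_le (one_le_nm h1) (one_le_nm h2)
      · rw [div_le_iff₀ (by positivity)]
        exact (hX p hpX).2
    have hL₀R : L₀ ≤ R := (hPL p0 hp0).1.trans (hPL p0 hp0).2
    have h1 := hC_P (qi K q) d L₀ R X1 (ne_bot_of_le hq le_rfl) hd hL₀1 hL₀R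
      (fun p hp => ⟨(hX p (Finset.mem_filter.mp hp).1).1, hPL p hp⟩)
    have h2 : ∑ p ∈ X1, w p ≤ C_T * W * L *
        ∑ p ∈ X1, (2 : ℝ) ^ ((pf p.1).card + (pf p.2).card) *
          (nm p.1 * nm p.2) ^ (-(1 / 2) : ℝ) := by
      rw [Finset.mul_sum]
      refine Finset.sum_le_sum fun p hp => ?_
      obtain ⟨a1, a2, a3⟩ := hXp p (Finset.mem_filter.mp hp).1
      have n1 := one_le_nm a1
      have n2 := one_le_nm a2
      refine (hC_T (qi K q) Q M s₁ s₂ c₁ c₂ p.1 p.2 hQ1 hM1 hs₁ hs₂ hc₁ hc₂ a1 a2 a3).trans ?_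
      have c2 : min 1 ((Q * M ^ 2 / (nm p.1 * nm p.2)) ^ (A + 3)) ≤ 1 := min_le_left _ _
      have c3 : 0 ≤ min 1 ((Q * M ^ 2 / (nm p.1 * nm p.2)) ^ (A + 3)) :=
        le_min zero_le_one (by positivity)
      calc C_T * W * (nm p.1 * nm p.2) ^ (-(1 / 2) : ℝ) *
            2 ^ ((pf p.1).card + (pf p.2).card) *
            L * min 1 ((Q * M ^ 2 / (nm p.1 * nm p.2)) ^ (A + 3))
          ≤ C_T * W * (nm p.1 * nm p.2) ^ (-(1 / 2) : ℝ) *
            2 ^ ((pf p.1).card + (pf p.2).card) *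
            L * 1 := by gcongr
        _ = _ := by ring
    have hRe : R ^ e ≤ B ^ (2 * e) * x ^ (ε₁ / 4) := by
      have h3 : R ≤ B ^ 2 * x ^ (6 : ℕ) := by
        rw [hR]
        have h4 : Q ^ (1 + δ') ≤ Q ^ (2 : ℕ) := by
          rw [← Real.rpow_natCast]
          exact Real.rpow_le_rpow_of_exponent_le hQ1 (by push_cast; linarith)
        calc Q ^ (1 + δ') * M ^ 2 ≤ Q ^ 2 * x ^ 2 := by gcongr
          _ ≤ (B * x ^ 2) ^ 2 * x ^ 2 := by gcongr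
          _ = B ^ 2 * x ^ (6 : ℕ) := by ring
      calc R ^ e ≤ (B ^ 2 * x ^ (6 : ℕ)) ^ e := by gcongr
        _ = B ^ (2 * e) * x ^ (ε₁ / 4) := by
            rw [Real.mul_rpow (by positivity) (by positivity), ← Real.rpow_natCast B,
              ← Real.rpow_mul (by positivity), ← Real.rpow_natCast x, ← Real.rpow_mul hx0.le]
            congr 2
            rw [he]
            push_cast
            ring
    have hR2 : R ^ (1 / 2 : ℝ) ≤ B * x ^ (1 + ε₁ / 4 + (1 - 2 * ε₁)) := by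
      have h3 : R ^ (1 / 2 : ℝ) = Q ^ ((1 + δ') / 2) * M := by
        rw [hR, Real.mul_rpow (by positivity) (by positivity), ← Real.rpow_mul (by linarith),
          ← Real.rpow_natCast M, ← Real.rpow_mul (by linarith)]
        norm_num
        left
        congr 1
        ring
      rw [h3]
      have h4 : B ^ ((1 + δ') / 2) ≤ B := by
        conv_rhs => rw [← Real.rpow_one B]
        exact Real.rpow_le_rpow_of_exponent_le hB1 (by linarith)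
      have h5 : (x ^ 2) ^ ((1 + δ') / 2) = x ^ (1 + ε₁ / 4) := by
        rw [← Real.rpow_natCast x, ← Real.rpow_mul hx0.le]
        congr 1
        rw [hδ']
        push_cast
        ring
      rw [Real.rpow_add hx0 _ (1 - 2 * ε₁), ← hMe]
      calc Q ^ ((1 + δ') / 2) * M ≤ (B * x ^ 2) ^ ((1 + δ') / 2) * M := by gcongr
        _ = B ^ ((1 + δ') / 2) * x ^ (1 + ε₁ / 4) * M := by
            rw [Real.mul_rpow (by positivity) (by positivity), h5]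
        _ ≤ B * x ^ (1 + ε₁ / 4) * M := by gcongr
        _ = _ := by ring
    have hL₀2 : nm d * L₀ ^ (-(1 / 2) : ℝ) ≤ c ^ (-(1 / 2) : ℝ) * x := by
      have h3 : L₀ ^ (-(1 / 2) : ℝ) ≤ (c * nm d ^ 2 / x ^ 2) ^ (-(1 / 2) : ℝ) :=
        Real.rpow_le_rpow_of_nonpos (by positivity) (le_max_right _ _) (by norm_num)
      have h4 : (c * nm d ^ 2 / x ^ 2) ^ (-(1 / 2) : ℝ) =
          c ^ (-(1 / 2) : ℝ) * (nm d)⁻¹ * x := by
        rw [Real.div_rpow (by positivity) (by positivity), Real.mul_rpow (by positivity)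
          (by positivity), ← Real.rpow_natCast (nm d), ← Real.rpow_mul (by linarith),
          ← Real.rpow_natCast x, ← Real.rpow_mul hx0.le]
        have e1 : (((2 : ℕ) : ℝ) * -(1 / 2)) = -1 := by norm_num
        rw [e1, Real.rpow_neg_one, Real.rpow_neg_one, div_inv_eq_mul]
      calc nm d * L₀ ^ (-(1 / 2) : ℝ) ≤ nm d * (c ^ (-(1 / 2) : ℝ) * (nm d)⁻¹ * x) := by
            rw [← h4]
            gcongr
        _ = c ^ (-(1 / 2) : ℝ) * x := by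
            field_simp
    have hWW : L₀ ^ (-(1 / 2) : ℝ) + R ^ (1 / 2 : ℝ) / nm d ≥ 0 := by positivity
    have h6 : (nc (qi K q) d : ℝ) * uc d * (L₀ ^ (-(1 / 2) : ℝ) + R ^ (1 / 2 : ℝ) / nm d) ≤
        |C_H| * (c ^ (-(1 / 2) : ℝ) * x + B * x ^ (1 + ε₁ / 4 + (1 - 2 * ε₁))) := by
      calc (nc (qi K q) d : ℝ) * uc d * (L₀ ^ (-(1 / 2) : ℝ) + R ^ (1 / 2 : ℝ) / nm d)
          ≤ (|C_H| * nm d) * (L₀ ^ (-(1 / 2) : ℝ) + R ^ (1 / 2 : ℝ) / nm d) := by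
            refine mul_le_mul_of_nonneg_right (hHQ3.trans ?_) hWW
            have := le_abs_self C_H
            gcongr
        _ = |C_H| * (nm d * L₀ ^ (-(1 / 2) : ℝ) + R ^ (1 / 2 : ℝ)) := by
            field_simp
        _ ≤ _ := by gcongr
    have h7 : x ^ (ε₁ / 4) * x ^ (ε₁ / 4) * (c ^ (-(1 / 2) : ℝ) * x +
          B * x ^ (1 + ε₁ / 4 + (1 - 2 * ε₁))) ≤ (c ^ (-(1 / 2) : ℝ) + B) * T := by
      have k1 : x ^ (ε₁ / 4) * x ^ (ε₁ / 4) * x ≤ T := by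
        calc x ^ (ε₁ / 4) * x ^ (ε₁ / 4) * x = x ^ (ε₁ / 4) * x ^ (ε₁ / 4) * x ^ (1 : ℝ) := by
              rw [Real.rpow_one]
          _ = x ^ (ε₁ / 4 + ε₁ / 4 + 1) := by
              rw [← Real.rpow_add hx0, ← Real.rpow_add hx0]
          _ ≤ T := by
              rw [hT]
              exact Real.rpow_le_rpow_of_exponent_le hx1 (by linarith)
      have k2 : x ^ (ε₁ / 4) * x ^ (ε₁ / 4) * x ^ (1 + ε₁ / 4 + (1 - 2 * ε₁)) ≤ T := by
        rw [← Real.rpow_add hx0, ← Real.rpow_add hx0, hT]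
        exact Real.rpow_le_rpow_of_exponent_le hx1 (by linarith)
      have k3 : 0 ≤ c ^ (-(1 / 2) : ℝ) := by positivity
      calc x ^ (ε₁ / 4) * x ^ (ε₁ / 4) * (c ^ (-(1 / 2) : ℝ) * x +
            B * x ^ (1 + ε₁ / 4 + (1 - 2 * ε₁)))
          = c ^ (-(1 / 2) : ℝ) * (x ^ (ε₁ / 4) * x ^ (ε₁ / 4) * x) +
            B * (x ^ (ε₁ / 4) * x ^ (ε₁ / 4) * x ^ (1 + ε₁ / 4 + (1 - 2 * ε₁))) := by ring
        _ ≤ c ^ (-(1 / 2) : ℝ) * T + B * T := by gcongr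
        _ = _ := by ring
    calc (nc (qi K q) d : ℝ) * ∑ p ∈ X1, w p
        ≤ (nc (qi K q) d : ℝ) * (C_T * W * L * (C_P * R ^ e * uc d *
          (L₀ ^ (-(1 / 2) : ℝ) + R ^ (1 / 2 : ℝ) / nm d))) := by
          refine mul_le_mul_of_nonneg_left (h2.trans ?_) hnc
          exact mul_le_mul_of_nonneg_left h1 (by positivity)
      _ ≤ (nc (qi K q) d : ℝ) * (C_T * W * L * (|C_P| * R ^ e * uc d *
          (L₀ ^ (-(1 / 2) : ℝ) + R ^ (1 / 2 : ℝ) / nm d))) := by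
          have := le_abs_self C_P
          gcongr
      _ = C_T * W * L * |C_P| * R ^ e * ((nc (qi K q) d : ℝ) * uc d *
          (L₀ ^ (-(1 / 2) : ℝ) + R ^ (1 / 2 : ℝ) / nm d)) := by ring
      _ ≤ C_T * W * (c_L * x ^ (ε₁ / 4)) * |C_P| * (B ^ (2 * e) * x ^ (ε₁ / 4)) *
          (|C_H| * (c ^ (-(1 / 2) : ℝ) * x + B * x ^ (1 + ε₁ / 4 + (1 - 2 * ε₁)))) := by gcongr
      _ = W * ((C_T * |C_P| * |C_H| * c_L * B ^ (2 * e)) *
          (x ^ (ε₁ / 4) * x ^ (ε₁ / 4) * (c ^ (-(1 / 2) : ℝ) * x +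
            B * x ^ (1 + ε₁ / 4 + (1 - 2 * ε₁))))) := by ring
      _ ≤ W * ((C_T * |C_P| * |C_H| * c_L * B ^ (2 * e)) *
          ((c ^ (-(1 / 2) : ℝ) + B) * T)) := by gcongr
      _ = W * (C1 * T) := by rw [hC1]; ring
  -- the far part
  have hfar : (nc (qi K q) d : ℝ) * ∑ p ∈ X2, w p ≤ W * (C2 * T) := by
    have h1 : ∀ p ∈ X2, w p ≤ C_T * W * C_V ^ 2 * (c_L * x ^ (ε₁ / 4)) * (b * x ^ 2)⁻¹ *
        ((nm p.1 * nm p.2) ^ 2)⁻¹ := by
      intro p hp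
      obtain ⟨hpX, hpR⟩ := Finset.mem_filter.mp hp
      rw [not_le] at hpR
      obtain ⟨a1, a2, a3⟩ := hXp p hpX
      have n1 := one_le_nm a1
      have n2 := one_le_nm a2
      set P : ℝ := nm p.1 * nm p.2 with hP
      have hP1 : 1 ≤ P := one_le_mul_of_one_le_of_one_le n1 n2
      have hP0 : 0 < P := by linarith
      have h2 := hC_T (qi K q) Q M s₁ s₂ c₁ c₂ p.1 p.2 hQ1 hM1 hs₁ hs₂ hc₁ hc₂ a1 a2 a3
      have h3 : min 1 ((Q * M ^ 2 / P) ^ (A + 3)) ≤ (b * x ^ 2)⁻¹ * (P ^ 2)⁻¹ := by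
        refine (min_le_right _ _).trans ((far_pow hA hQ1 hM1 hMQ hpR.le).trans ?_)
        have h4 : b * x ^ 2 ≤ P := by
          rw [← hQe]
          exact hQR.trans hpR.le
        rw [← mul_inv]
        refine inv_anti₀ (by positivity) ?_
        calc b * x ^ 2 * P ^ 2 ≤ P * P ^ 2 := by gcongr
          _ = P ^ 3 := by ring
      have h5 : (2 : ℝ) ^ ((pf p.1).card + (pf p.2).card) ≤ C_V ^ 2 * P ^ (1 / 2 : ℝ) := by
        rw [pow_add]
        have b1 := hC_V p.1 a1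
        have b2 := hC_V p.2 a2
        calc (2 : ℝ) ^ (pf p.1).card * 2 ^ (pf p.2).card
            ≤ (C_V * nm p.1 ^ (1 / 2 : ℝ)) * (C_V * nm p.2 ^ (1 / 2 : ℝ)) := by gcongr
          _ = C_V ^ 2 * P ^ (1 / 2 : ℝ) := by
              rw [hP, Real.mul_rpow (by linarith) (by linarith)]; ring
      have h6 : P ^ (-(1 / 2) : ℝ) * P ^ (1 / 2 : ℝ) = 1 := by
        rw [← Real.rpow_add hP0]; norm_num
      have h7 : 0 ≤ min 1 ((Q * M ^ 2 / P) ^ (A + 3)) := le_min zero_le_one (by positivity)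
      calc w p ≤ C_T * W * P ^ (-(1 / 2) : ℝ) * 2 ^ ((pf p.1).card + (pf p.2).card) *
            L * min 1 ((Q * M ^ 2 / P) ^ (A + 3)) := h2
        _ ≤ C_T * W * P ^ (-(1 / 2) : ℝ) * (C_V ^ 2 * P ^ (1 / 2 : ℝ)) *
            (c_L * x ^ (ε₁ / 4)) * ((b * x ^ 2)⁻¹ * (P ^ 2)⁻¹) := by
            gcongr
        _ = C_T * W * C_V ^ 2 * (c_L * x ^ (ε₁ / 4)) * (b * x ^ 2)⁻¹ * (P ^ 2)⁻¹ *
            (P ^ (-(1 / 2) : ℝ) * P ^ (1 / 2 : ℝ)) := by ring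
        _ = _ := by rw [h6, mul_one]
    have h2 : ∑ p ∈ X2, w p ≤
        C_T * W * C_V ^ 2 * (c_L * x ^ (ε₁ / 4)) * (b * x ^ 2)⁻¹ * S := by
      refine (Finset.sum_le_sum h1).trans ?_
      rw [← Finset.mul_sum]
      refine mul_le_mul_of_nonneg_left ?_ (by positivity)
      exact hS X2 fun p hp => ⟨(hXp p (Finset.mem_filter.mp hp).1).1,
        (hXp p (Finset.mem_filter.mp hp).1).2.1⟩
    have h3 : (nc (qi K q) d : ℝ) ≤ |C_H| * x ^ 2 := by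
      have u1 : (1 : ℝ) ≤ uc d := by exact_mod_cast uc_pos hd0
      calc (nc (qi K q) d : ℝ) ≤ nc (qi K q) d * uc d := le_mul_of_one_le_right hnc u1
        _ ≤ C_H * nm d := hHQ3
        _ ≤ |C_H| * x ^ 2 := by
            have := le_abs_self C_H
            gcongr
    have h4 : x ^ (ε₁ / 4) ≤ T := by
      rw [hT]
      exact Real.rpow_le_rpow_of_exponent_le hx1 (by linarith)
    calc (nc (qi K q) d : ℝ) * ∑ p ∈ X2, w p
        ≤ (|C_H| * x ^ 2) *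
            (C_T * W * C_V ^ 2 * (c_L * x ^ (ε₁ / 4)) * (b * x ^ 2)⁻¹ * S) := by
          gcongr
      _ = W * (C2 * x ^ (ε₁ / 4)) := by
          rw [hC2]
          field_simp
      _ ≤ W * (C2 * T) := by gcongr
  -- the conclusion
  have hfin : (C1 + C2) ≤ η * c_H * x ^ ε₁ := by
    have h1 : ((C1 + C2) / (η * c_H)) ^ (1 / ε₁) ≤ x :=
      hq₂.trans (by rw [hx]; exact_mod_cast hqq₂)
    have h2 : (C1 + C2) / (η * c_H) ≤ x ^ ε₁ := by
      calc (C1 + C2) / (η * c_H) = (((C1 + C2) / (η * c_H)) ^ (1 / ε₁)) ^ ε₁ := by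
            rw [← Real.rpow_mul (by positivity), one_div, inv_mul_cancel₀ hε₁.ne', Real.rpow_one]
        _ ≤ x ^ ε₁ := by gcongr
    rw [div_le_iff₀ (by positivity)] at h2
    linarith
  have hlow : c_H * x ^ (2 : ℝ) ≤ nc (qi K q) (qi K q) := by
    have e1 : ((2 : ℕ) : ℝ) / 2 + 1 = (2 : ℝ) := by norm_num
    rwa [e1] at hHQ1
  rw [hsplit, mul_add]
  calc (nc (qi K q) d : ℝ) * ∑ p ∈ X1, w p + (nc (qi K q) d : ℝ) * ∑ p ∈ X2, w p
      ≤ W * (C1 * T) + W * (C2 * T) := add_le_add hnear hfar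
    _ = W * ((C1 + C2) * T) := by ring
    _ ≤ W * ((η * c_H * x ^ ε₁) * T) := by gcongr
    _ = η * W * (c_H * x ^ (2 : ℝ)) := by
        have h1 : x ^ (2 : ℝ) = x ^ ε₁ * T := by
          rw [hT, ← Real.rpow_add hx0]; congr 1; ring
        rw [h1]; ring
    _ ≤ η * W * nc (qi K q) (qi K q) := by gcongr

end Pool.Agent.H29.CRZ
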