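import Pool.Agent.H65.CRZ.TD
import Pool.Agent.H37.CV.All

/-!
# Zeros on the critical line: the second moment of the primitive characters (row SE)
-/

set_option autoImplicit false

open NumberField NumberField.InfinitePlace Complex Filter Topology MeasureTheory

namespace Pool.Agent.H29.CRZ

open Pool.Agent.H65.CRZ Pool.Agent.H37.CV Pool.Agent.H28.RC Pool.Agent.H25.HK

open scoped Classical in
theorem pf_SE (hOP : H65.CRZ.T_OP) (_hDT : H65.CRZ.T_DT) (hDL : H65.CRZ.T_DL)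
    (hDS : H65.CRZ.T_DS) (hSS : H65.CRZ.T_SS) (hCQ : H65.CRZ.T_CQ) : H65.CRZ.T_SE := by
  intro K _ _ _ hf ε₁ hε0 hε1
  obtain ⟨δ₁, B₁, hδ₁, hδ₁', hB₁, hDL'⟩ := hDL K hf ε₁ hε0 hε1
  obtain ⟨δ₂, C₁, B₂, hδ₂, hδ₂', hC₁, hB₂, q₁, hDS'⟩ := hDS K hf
  refine ⟨min δ₁ δ₂, max B₁ B₂, lt_min hδ₁ hδ₂, (min_le_left _ _).trans hδ₁',
    hB₁.trans (le_max_left _ _), ?_⟩
  intro η hη
  obtain ⟨c, q₂, hc, hSS'⟩ := hSS K hf
  set κ : ℝ := η / 33 with hκ
  have hκ0 : 0 < κ := by positivity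
  obtain ⟨q₃, hq3⟩ := hDL' κ c hκ0 hc
  obtain ⟨c', C, q₄, hc', hq4⟩ := a_HQ K
  obtain ⟨-, cq, hcq, hCQ'⟩ := hCQ K hf
  have h1 : Tendsto (fun q : ℕ => (|C| * C₁) * (q : ℝ) ^ (-(1 / 4) : ℝ)) atTop (𝓝 0) := by
    have := (tendsto_rpow_neg_atTop (show (0 : ℝ) < 1 / 4 by norm_num)).comp
      tendsto_natCast_atTop_atTop
    simpa using this.const_mul (|C| * C₁)
  obtain ⟨q₅, hq5⟩ := eventually_atTop.1 (h1.eventually (gt_mem_nhds hκ0))
  refine ⟨max (max q₁ q₂) (max q₃ (max q₄ q₅)), fun q hq hqq s₁ s₂ c₁ c₂ hs₁ hs₂ hc₁ hc₂ => ?_⟩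
  have hqa : q₁ ≤ q := le_trans (le_trans (le_max_left _ _) (le_max_left _ _)) hqq
  have hqb : q₂ ≤ q := le_trans (le_trans (le_max_right _ _) (le_max_left _ _)) hqq
  have hqc : q₃ ≤ q := le_trans (le_trans (le_max_left _ _) (le_max_right _ _)) hqq
  have hqd : q₄ ≤ q := le_trans (le_trans (le_max_left _ _)
    ((le_max_right _ _).trans (le_max_right _ _))) hqq
  have hqe : q₅ ≤ q := le_trans (le_trans (le_max_right _ _)
    ((le_max_right _ _).trans (le_max_right _ _))) hqq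
  have hq0 : (0 : ℝ) < q := by exact_mod_cast hq.pos
  have hq1' : (1 : ℝ) < q := by exact_mod_cast hq.one_lt
  set M : ℝ := Mq ε₁ q with hM
  set Q : ℝ := cA K (qi K q) ^ 2 with hQ
  have hMe : M = (q : ℝ) ^ (1 - 2 * ε₁) := by rw [hM, Mq]
  have hM1 : 1 ≤ M := by rw [hMe]; exact Real.one_le_rpow hq1'.le (by linarith)
  have hMq : M < q := by
    have := Real.rpow_lt_rpow_of_exponent_lt hq1' (show 1 - 2 * ε₁ < 1 by linarith)
    rw [hMe]
    rwa [Real.rpow_one] at this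
  have hQ0 : 0 < Q := by
    rw [hQ, (hCQ' q hq).1]
    positivity
  have hPM : ∀ P : PrI K, qi K q ≤ P.1 → M < np P := fun P h => hMq.trans_le (le_np K q hq P h)
  obtain ⟨hfin, T, σ, hT, hσ, hsum⟩ := a_IE K q hq
  rw [hf] at hT
  rw [hf] at hσ
  set N : ℝ := (nc (qi K q) (qi K q) : ℝ) with hN
  obtain ⟨hc1, hc2⟩ := hq4 q hq hqd
  have hNpos : 0 < N := lt_of_lt_of_le (by positivity) hc1
  set D : Ideal (𝓞 K) × Ideal (𝓞 K) → ℂ :=
    fun p => Dg (qi K q) Q M s₁ s₂ c₁ c₂ p.1 p.2 with hD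
  -- the conditions on the exponents
  have hs1a : |s₁.re - 1 / 2| ≤ δ₁ := hs₁.trans (min_le_left _ _)
  have hs1b : |s₁.re - 1 / 2| ≤ δ₂ := hs₁.trans (min_le_right _ _)
  have hs2a : |s₂.re - 1 / 2| ≤ δ₁ := hs₂.trans (min_le_left _ _)
  have hs2b : |s₂.re - 1 / 2| ≤ δ₂ := hs₂.trans (min_le_right _ _)
  have hs1c := abs_le.1 (hs1a.trans hδ₁')
  have hs2c := abs_le.1 (hs2a.trans hδ₁')
  -- the growth factors
  set W : ℝ := (1 + |s₁.im| + |s₂.im|) ^ (max B₁ B₂) with hW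
  have hb1 : 1 ≤ 1 + |s₁.im| + |s₂.im| := by
    have := abs_nonneg s₁.im
    have := abs_nonneg s₂.im
    linarith
  have hW1 : (1 + |s₁.im| + |s₂.im|) ^ B₁ ≤ W :=
    Real.rpow_le_rpow_of_exponent_le hb1 (le_max_left _ _)
  have hW2 : (1 + |s₁.im| + |s₂.im|) ^ B₂ ≤ W :=
    Real.rpow_le_rpow_of_exponent_le hb1 (le_max_right _ _)
  have hW0 : 0 ≤ W := by positivity
  -- the opened second moment for each divisor
  have hopen : ∀ d : Ideal (𝓞 K), qi K q ≤ d →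
      ∑ᶠ ψ ∈ Ch (qi K q) d, A2g Q s₁ s₂ ψ * (pol M c₁ ψ *
        pol M c₂ (fun I => (starRingEnd ℂ) (ψ I))) =
        nc (qi K q) d * ∑' p : CP (qi K q) d, D p.1 := by
    intro d hd
    exact (hOP K (qi K q) d Q M s₁ s₂ c₁ c₂ (qi_ne_bot K q hq) hd hQ0 hM1 hPM (by linarith)
      (by linarith) (by linarith) (by linarith)).2
  have hnorm : ∀ d : Ideal (𝓞 K), qi K q ≤ d →
      Summable (fun p : CP (qi K q) d => ‖D p.1‖) := fun d hd =>
    (hOP K (qi K q) d Q M s₁ s₂ c₁ c₂ (qi_ne_bot K q hq) hd hQ0 hM1 hPM (by linarith)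
      (by linarith) (by linarith) (by linarith)).1
  -- the long relations
  have hlong : ∀ d : Ideal (𝓞 K), qi K q ≤ d → ∀ X : Finset (Ideal (𝓞 K) × Ideal (𝓞 K)),
      (∀ p ∈ X, p ∈ CP (qi K q) d ∧ c * nm d ^ 2 ≤ nm p.1 * nm p.2 * (q : ℝ) ^ 2) →
      (nc (qi K q) d : ℝ) * ∑ p ∈ X, ‖D p‖ ≤ κ * W * N := by
    intro d hd X hX
    refine (hq3 q hq hqc d s₁ s₂ c₁ c₂ hd hs1a hs2a hc₁ hc₂ X hX).trans ?_
    gcongr
  -- the proper divisors
  have hprop : ∀ d : Ideal (𝓞 K), qi K q ≤ d → d ≠ qi K q →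
      (nc (qi K q) d : ℝ) * ‖∑' p : CP (qi K q) d, D p.1‖ ≤ 2 * κ * W * N := by
    intro d hd hdq
    have h2 : (nc (qi K q) d : ℝ) ≤ |C| * (q : ℝ) ^ (-(1 / 2) : ℝ) * N := by
      refine ((hc2 d hd).2 hdq).trans ?_
      gcongr
      exact le_abs_self C
    have h3 : (nc (qi K q) d : ℝ) * ∑' p : CP (qi K q) d, ‖D p.1‖ ≤ 2 * κ * W * N := by
      rw [← tsum_mul_left]
      refine (tsum_norm_le' (CP (qi K q) d) (fun p => (nc (qi K q) d : ℝ) * ‖D p‖)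
        (fun p => by positivity) (2 * κ * W * N) ?_).2
      intro X hX
      rw [← Finset.mul_sum]
      rw [← Finset.sum_filter_add_sum_filter_not X (fun p =>
        c * nm d ^ 2 ≤ nm p.1 * nm p.2 * (q : ℝ) ^ 2), mul_add]
      have h4 := hlong d hd (X.filter fun p =>
        c * nm d ^ 2 ≤ nm p.1 * nm p.2 * (q : ℝ) ^ 2) (by
          intro p hp
          rw [Finset.mem_filter] at hp
          exact ⟨hX p hp.1, hp.2⟩)
      have h5 := hDS' ε₁ q hε0 hε1 hq hqa s₁ s₂ c₁ c₂ hs1b hs2b hc₁ hc₂ (X.filter fun p =>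
        ¬ c * nm d ^ 2 ≤ nm p.1 * nm p.2 * (q : ℝ) ^ 2) (by
          intro p hp
          rw [Finset.mem_filter, not_le] at hp
          exact ⟨(hX p hp.1).2.2.1, (hSS' q hq hqb).2 d hd p (hX p hp.1) hp.2⟩)
      have h6 : (nc (qi K q) d : ℝ) * ∑ p ∈ X.filter (fun p =>
          ¬ c * nm d ^ 2 ≤ nm p.1 * nm p.2 * (q : ℝ) ^ 2), ‖D p‖ ≤ κ * W * N := by
        calc _ ≤ (|C| * (q : ℝ) ^ (-(1 / 2) : ℝ) * N) * (C₁ * W * (q : ℝ) ^ (1 / 4 : ℝ)) := by
              refine mul_le_mul h2 (h5.trans ?_) (Finset.sum_nonneg fun _ _ => norm_nonneg _)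
                (by positivity)
              gcongr
          _ = ((|C| * C₁) * (q : ℝ) ^ (-(1 / 4) : ℝ)) * W * N := by
              rw [show (-(1 / 4) : ℝ) = -(1 / 2) + 1 / 4 by norm_num, Real.rpow_add hq0]
              ring
          _ ≤ κ * W * N := by
              gcongr
              exact (hq5 q hqe).le
      linarith
    refine le_trans ?_ h3
    refine mul_le_mul_of_nonneg_left ?_ (Nat.cast_nonneg _)
    exact norm_tsum_le_tsum_norm (hnorm d hd)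
  -- the main term
  have htop : ((⊤, ⊤) : Ideal (𝓞 K) × Ideal (𝓞 K)) ∈ CP (qi K q) (qi K q) := by
    refine ⟨top_ne_bot, top_ne_bot, top_sup_eq _, top_sup_eq _, top_sup_eq _, 1, 1, one_ne_zero,
      one_ne_zero, ?_, ?_, ?_, rfl⟩
    · rw [Ideal.span_singleton_one, top_sup_eq]
    · rw [Ideal.span_singleton_one, top_sup_eq]
    · rw [sub_self]; exact Ideal.zero_mem _
  have hmain : ‖(∑' p : CP (qi K q) (qi K q), D p.1) - D (⊤, ⊤)‖ ≤ κ * W := by
    have h2 := (hnorm (qi K q) le_rfl).of_norm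
    have h3 := h2.tsum_eq_add_tsum_ite ⟨(⊤, ⊤), htop⟩
    rw [h3, add_sub_cancel_left]
    set G : Ideal (𝓞 K) × Ideal (𝓞 K) → ℝ := fun p => if p = (⊤, ⊤) then 0 else ‖D p‖ with hG
    have hG0 : ∀ p, 0 ≤ G p := by
      intro p
      rw [hG]
      dsimp only
      split_ifs
      · exact le_rfl
      · exact norm_nonneg _
    have h4 : ∀ p : CP (qi K q) (qi K q),
        ‖(if p = ⟨(⊤, ⊤), htop⟩ then 0 else D p.1 : ℂ)‖ = G p.1 := by
      intro p
      rw [hG]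
      dsimp only
      by_cases h5 : p.1 = (⊤, ⊤)
      · rw [if_pos h5, if_pos (Subtype.ext h5), norm_zero]
      · rw [if_neg h5, if_neg (fun h6 => h5 (congrArg Subtype.val h6))]
    have h5 := tsum_norm_le' (CP (qi K q) (qi K q)) G hG0 (κ * W) (by
      intro X hX
      have h6 : ∑ p ∈ X, G p = ∑ p ∈ X.filter (fun p => p ≠ (⊤, ⊤)), ‖D p‖ := by
        rw [Finset.sum_filter]
        refine Finset.sum_congr rfl fun p _ => ?_
        rw [hG]
        dsimp only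
        by_cases h7 : p = (⊤, ⊤)
        · rw [if_pos h7, if_neg (by simpa using h7)]
        · rw [if_neg h7, if_pos h7]
      rw [h6]
      have h7 := hlong (qi K q) le_rfl (X.filter (fun p => p ≠ (⊤, ⊤))) (by
        intro p hp
        rw [Finset.mem_filter] at hp
        refine ⟨hX p hp.1, ?_⟩
        by_contra h8
        rw [not_le] at h8
        exact hp.2 ((hSS' q hq hqb).1 p (hX p hp.1) h8))
      have h8 : N * ∑ p ∈ X.filter (fun p => p ≠ (⊤, ⊤)), ‖D p‖ ≤ N * (κ * W) := by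
        rw [mul_comm N (κ * W)]
        exact h7
      exact le_of_mul_le_mul_left h8 hNpos)
    calc ‖∑' p : CP (qi K q) (qi K q), (if p = ⟨(⊤, ⊤), htop⟩ then 0 else D p.1 : ℂ)‖
        ≤ ∑' p : CP (qi K q) (qi K q), ‖(if p = ⟨(⊤, ⊤), htop⟩ then 0 else D p.1 : ℂ)‖ := by
          refine norm_tsum_le_tsum_norm ?_
          simp only [h4]
          exact h5.1
      _ = ∑' p : CP (qi K q) (qi K q), G p.1 := tsum_congr h4
      _ ≤ κ * W := h5.2
  -- the sum over the primitive characters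
  have hall : (∑ᶠ χ ∈ Pr K (qi K q), A2g Q s₁ s₂ χ.ψ * (pol M c₁ χ.ψ *
        pol M c₂ (fun I => (starRingEnd ℂ) (χ.ψ I)))) =
      (N : ℂ) * (∑' p : CP (qi K q) (qi K q), D p.1) +
        ∑ d ∈ T, (σ d : ℂ) * (nc (qi K q) d * ∑' p : CP (qi K q) d, D p.1) := by
    have h2 := hsum (fun ψ => A2g Q s₁ s₂ ψ * (pol M c₁ ψ *
        pol M c₂ (fun I => (starRingEnd ℂ) (ψ I))))
    rw [h2, hopen _ le_rfl]
    have h3 : ∑ d ∈ T, (σ d : ℂ) * ∑ᶠ ψ ∈ Ch (qi K q) d, A2g Q s₁ s₂ ψ * (pol M c₁ ψ *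
        pol M c₂ (fun I => (starRingEnd ℂ) (ψ I))) =
        ∑ d ∈ T, (σ d : ℂ) * (nc (qi K q) d * ∑' p : CP (qi K q) d, D p.1) :=
      Finset.sum_congr rfl fun d hd => by rw [hopen d (hσ d hd).1]
    rw [h3, hN, Complex.ofReal_natCast]
  have hB : ‖∑ d ∈ T, (σ d : ℂ) * (nc (qi K q) d * ∑' p : CP (qi K q) d, D p.1)‖ ≤
      32 * κ * W * N := by
    have h2 : ∀ d ∈ T, ‖(σ d : ℂ) * (nc (qi K q) d * ∑' p : CP (qi K q) d, D p.1)‖ ≤
        4 * (2 * κ * W * N) := by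
      intro d hd
      obtain ⟨hd1, hd2, hd3⟩ := hσ d hd
      rw [norm_mul, norm_mul, Complex.norm_natCast]
      refine mul_le_mul ?_ (hprop d hd1 hd2) (by positivity) (by norm_num)
      rw [Complex.norm_intCast]
      have h9 : |σ d| ≤ 4 := by
        have h10 : (2 : ℤ) ^ 2 = 4 := by norm_num
        rw [h10] at hd3
        exact hd3
      exact_mod_cast h9
    refine (norm_sum_le _ _).trans ((Finset.sum_le_sum h2).trans ?_)
    rw [Finset.sum_const, nsmul_eq_mul]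
    have h7 : (T.card : ℝ) ≤ 4 := by
      have h8 : T.card ≤ 4 := by
        have h10 : 2 ^ 2 = 4 := by norm_num
        rw [h10] at hT
        exact hT
      exact_mod_cast h8
    calc (T.card : ℝ) * (4 * (2 * κ * W * N)) ≤ 4 * (4 * (2 * κ * W * N)) := by gcongr
      _ = _ := by ring
  have hid : (N : ℂ) * (∑' p : CP (qi K q) (qi K q), D p.1) +
        ∑ d ∈ T, (σ d : ℂ) * (nc (qi K q) d * ∑' p : CP (qi K q) d, D p.1) -
      (nc (qi K q) (qi K q) : ℂ) * D (⊤, ⊤) =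
      (N : ℂ) * ((∑' p : CP (qi K q) (qi K q), D p.1) - D (⊤, ⊤)) +
        ∑ d ∈ T, (σ d : ℂ) * (nc (qi K q) d * ∑' p : CP (qi K q) d, D p.1) := by
    rw [hN, Complex.ofReal_natCast]
    ring
  rw [hall]
  refine (le_of_eq (congrArg norm hid)).trans ?_
  refine (norm_add_le _ _).trans ?_
  have h9 : ‖(N : ℂ) * ((∑' p : CP (qi K q) (qi K q), D p.1) - D (⊤, ⊤))‖ ≤ N * (κ * W) := by
    rw [norm_mul, Complex.norm_real, Real.norm_of_nonneg hNpos.le]
    exact mul_le_mul_of_nonneg_left hmain hNpos.le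
  have h10 : η = 33 * κ := by rw [hκ]; ring
  rw [h10]
  calc ‖(N : ℂ) * ((∑' p : CP (qi K q) (qi K q), D p.1) - D (⊤, ⊤))‖ +
        ‖∑ d ∈ T, (σ d : ℂ) * (nc (qi K q) d * ∑' p : CP (qi K q) d, D p.1)‖
      ≤ N * (κ * W) + 32 * κ * W * N := add_le_add h9 hB
    _ = 33 * κ * W * N := by ring

end Pool.Agent.H29.CRZ
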